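import Pool.Agent.Lib.P49c.FinalI

/-!
# Unit tasks on a fixed number of processors: classes generated from the inner tasks
-/

namespace Pool.Agent.Results.MP_49d417_lc.CoreWidth

open Pool.Agent.P49d

/-- For all `m ≥ 2`, `w` and `d` some deterministic polynomial time machine outputs, for every
strict partial order `r` on `n` tasks of length one, a deadline which is met by a schedule on `m`
processors; if the order is in the class `ClsI w d`, it is the smallest one. (`ClsI w 1` contains the
orders whose inner tasks, those with a predecessor and a successor, have dominance width at most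
`w`, whatever the minimal and the maximal tasks and the relations between them; `ClsI w 2` contains
the disjoint unions of any number of these.) -/
theorem result (m w d : ℕ) (hm : 2 ≤ m) : ∃ f : Inst → ℕ,
    Nonempty (Turing.TM2ComputableInPolyTime (α := Inst) (αΓ := Bool) (βΓ := Bool)
      enc (fun x => List.replicate x true) f) ∧
    ∀ (n : ℕ) (r : Fin n → Fin n → Prop) (hr : SO r), Sd r Finset.univ m (f ⟨n, r, hr⟩) ∧
      (Pool.Agent.P49c.ClsI r w d Finset.univ →
        ∀ D, Sd r Finset.univ m D → f ⟨n, r, hr⟩ ≤ D) :=
  Pool.Agent.P49c.mainI m w d hm

end Pool.Agent.Results.MP_49d417_lc.CoreWidth
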