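import Pool.Agent.Lib.P49q.Final

/-!
# Unit tasks on a fixed number of processors: orders with long disjoint chains
-/

namespace Pool.Agent.Results.MP_49d417_lc.LongChains

open Pool.Agent.P49d

/-- For all `m ≥ 2` and `k` some deterministic polynomial time machine outputs, for every strict
partial order `r` on `n` tasks of length one, a deadline which is met by a schedule on `m`
processors, and no schedule on `m` processors meets a smaller deadline `D` for which the order has
`m - 2` pairwise disjoint chains with together at least `(m - 2) * D - k` tasks. -/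
theorem result (m k : ℕ) (hm : 2 ≤ m) : ∃ f : Inst → ℕ,
    Nonempty (Turing.TM2ComputableInPolyTime (α := Inst) (αΓ := Bool) (βΓ := Bool)
      enc (fun x => List.replicate x true) f) ∧
    ∀ (n : ℕ) (r : Fin n → Fin n → Prop) (hr : SO r),
      Sd r Finset.univ m (f ⟨n, r, hr⟩) ∧
      ∀ C : Fin (m - 2) → Finset (Fin n),
        (∀ j, ∀ x ∈ C j, ∀ y ∈ C j, x ≠ y → r x y ∨ r y x) →
        (∀ i j, i ≠ j → Disjoint (C i) (C j)) →
        ∀ D, (m - 2) * D ≤ (∑ j, (C j).card) + k → Sd r Finset.univ m D → f ⟨n, r, hr⟩ ≤ D :=
  Pool.Agent.P49q.main m k hm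

end Pool.Agent.Results.MP_49d417_lc.LongChains
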