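import Pool.Agent.Lib.SucW.Final

/-!
# Unit tasks on any number of processors: orders of bounded successor width
-/

namespace Pool.Agent.Results.MP_49d417_lc.SuccessorWidth

open Pool.Agent.P49d Pool.Agent.SucW

/-- For every `w` some deterministic polynomial time machine outputs, for every strict partial order
`r` on `n` tasks of length one and every number `m ≥ 1` of processors, a deadline which is met by a
schedule on `m` processors; if the order or its dual has successor width at most `w`, it is the
smallest one. -/
theorem result (w : ℕ) : ∃ f : InstM → ℕ,
    Nonempty (Turing.TM2ComputableInPolyTime (α := InstM) (αΓ := Bool) (βΓ := Bool)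
      encM (fun x => List.replicate x true) f) ∧
    ∀ (n : ℕ) (r : Fin n → Fin n → Prop) (hr : SO r) (m : ℕ), 1 ≤ m →
      Sd r Finset.univ m (f (⟨n, r, hr⟩, m)) ∧
      (SuccWidth r w ∨ SuccWidth (fun x y => r y x) w →
        ∀ D, Sd r Finset.univ m D → f (⟨n, r, hr⟩, m) ≤ D) :=
  main w

end Pool.Agent.Results.MP_49d417_lc.SuccessorWidth
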